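import Mathlib
import Pool.Agent.Y910.F.Stm2

/-!
# FK-KAP: an integral element with nonvanishing signed sums of conjugates (helper420)
-/

set_option autoImplicit false

namespace Pool.Agent.Y420.FK.KAP

open Pool.Agent.Y910.F

variable {K : Type} [Field K] [Algebra ℚ K] [FiniteDimensional ℚ K]

/-- sign -/
def sg (b : Bool) : ℤ := if b then 1 else -1

/-- the signed sum of the conjugates -/
noncomputable def L [Fintype (K ≃ₐ[ℚ] K)] (e : (K ≃ₐ[ℚ] K) → Bool) : K →ₗ[ℚ] K :=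
  ∑ σ : K ≃ₐ[ℚ] K, sg (e σ) • σ.toLinearMap

theorem L_apply [Fintype (K ≃ₐ[ℚ] K)] (e : (K ≃ₐ[ℚ] K) → Bool) (z : K) :
    L e z = ∑ σ : K ≃ₐ[ℚ] K, (sg (e σ) : K) * σ z := by
  rw [L, LinearMap.sum_apply]
  refine Finset.sum_congr rfl fun σ _ => ?_
  rw [LinearMap.smul_apply, zsmul_eq_mul]
  rfl

theorem L_ne [Fintype (K ≃ₐ[ℚ] K)] (e : (K ≃ₐ[ℚ] K) → Bool) : LinearMap.ker (L e) ≠ ⊤ := by
  intro h
  have h0 : ∀ z, L e z = 0 := fun z => by
    have : z ∈ LinearMap.ker (L e) := by rw [h]; trivial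
    exact this
  have hli := (linearIndependent_monoidHom K K).comp
    (fun σ : K ≃ₐ[ℚ] K => (σ : K →* K)) (fun a b hab => by
      ext z
      exact DFunLike.congr_fun hab z)
  rw [Fintype.linearIndependent_iff] at hli
  have h1 := hli (fun σ => (sg (e σ) : K)) (by
    ext z
    rw [Finset.sum_apply]
    have := h0 z
    rw [L_apply] at this
    exact this) 1
  have h2 : (sg (e 1) : K) ≠ 0 := by
    rw [sg]
    split_ifs <;> simp
  exact h2 h1

theorem exists_kap [Fintype (K ≃ₐ[ℚ] K)] : ∃ κ : K, ∀ e : (K ≃ₐ[ℚ] K) → Bool, L e κ ≠ 0 := by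
  classical
  let s : Finset (Submodule ℚ K) := Finset.univ.image (fun e => LinearMap.ker (L (K := K) e))
  have hs : ⊤ ∉ s := by
    intro h
    rw [Finset.mem_image] at h
    obtain ⟨e, _, he⟩ := h
    exact L_ne e he
  have h1 := Subspace.biUnion_ne_univ_of_top_notMem hs
  rw [Ne, Set.eq_univ_iff_forall, not_forall] at h1
  obtain ⟨κ, hκ⟩ := h1
  refine ⟨κ, fun e he => hκ ?_⟩
  rw [Set.mem_iUnion₂]
  exact ⟨LinearMap.ker (L e), Finset.mem_image_of_mem _ (Finset.mem_univ e), he⟩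

theorem done : StKAP := by
  intro K _ _
  obtain ⟨κ, hκ⟩ := exists_kap (K := K)
  have hal : IsAlgebraic ℤ κ :=
    (IsFractionRing.isAlgebraic_iff ℤ ℚ K).2 (Algebra.IsAlgebraic.isAlgebraic κ)
  obtain ⟨n, hn, hint⟩ := hal.exists_integral_multiple
  refine ⟨n • κ, hint, ?_⟩
  intro ε hε
  have h1 : ∑ σ : K ≃ₐ[ℚ] K, (ε σ : K) * σ (n • κ) =
      (n : K) * L (fun σ => decide (ε σ = 1)) κ := by
    rw [L_apply, Finset.mul_sum]
    refine Finset.sum_congr rfl fun σ _ => ?_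
    have h2 : sg (decide (ε σ = 1)) = ε σ := by
      rcases hε σ with h | h
      · simp [sg, h]
      · rw [h]; simp [sg]
    rw [h2, map_zsmul, zsmul_eq_mul]
    ring
  rw [h1]
  exact mul_ne_zero (by exact_mod_cast hn) (hκ _)

end Pool.Agent.Y420.FK.KAP
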